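import Mathlib
import Pool.Agent.W235.RM.Final

/-!
The Bombieri-Lang-Vojta equivalence for all affine varieties and all closed subschemes, restricted
to entire curves of exponential type on the analytic side and to sparse integral points, or linear
recurrence sequences of integral points, on the arithmetic side.
-/

set_option autoImplicit false

namespace Pool.Agent.Results.MP_e97a4d_nt.ExpSparseEquivalence

open MvPolynomial Pool.Agent.W235.RM
open Pool.Agent.H159R3.Exp (ExpCurvesIn FinitelyManyIntegral)
open scoped NumberField

theorem result {K : Type} [Field K] [NumberField K] (σ : K →+* ℂ) {ι κ : Type} [Finite ι] {n : ℕ}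
    (F : ι → MvPolynomial (Fin n) (𝓞 K)) (G : κ → MvPolynomial (Fin n) (𝓞 K)) :
    List.TFAE [ExpCurvesIn σ F G, GmCurvesIn σ F G, SparseFinite F G, SparseFiniteAll F G,
      SparseBounded F G, RecurrenceFinite F G] ∧
    (EntireCurvesIn σ F G → ExpCurvesIn σ F G) ∧
    (FinitelyManyIntegral F G → RecurrenceFinite F G) :=
  ⟨tfae σ F G, exp_of_entire σ F G, rec_of_integral F G⟩

end Pool.Agent.Results.MP_e97a4d_nt.ExpSparseEquivalence
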