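import Mathlib
import Pool.Agent.W235.BLV.Final

/-!
The Bombieri-Lang-Vojta equivalence between finiteness of integral points and degeneracy of entire
curves, for complements of closed subsets in families of projective varieties of nonpositive log
canonical degree with arbitrary singularities, and for all closed subschemes `V'`.
-/

set_option autoImplicit false

namespace Pool.Agent.Results.MP_e97a4d_nt.LogFanoComplements

open MvPolynomial Pool.Agent.W235.BLV
open scoped NumberField

theorem result {K : Type} [Field K] [NumberField K] (σ : K →+* ℂ) {m N : ℕ}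
    {ι θ κ : Type} [Fintype ι]
    (F : ι → Forms (𝓞 K) m N) (d : ι → ℕ) (hF : ∀ j, (F j).IsHomogeneous (d j))
    (G : θ → Forms (𝓞 K) m N) (e : θ → ℕ) (he : ∀ k, 1 ≤ e k)
    (hG : ∀ k, (G k).IsHomogeneous (e k))
    (hd : ∀ k, ∑ j, d j + e k ≤ N + 1)
    (hex : ∑ j, d j = N → ∃ j, 2 ≤ d j)
    (H : κ → Forms (𝓞 K) m N) (h : κ → ℕ) (hH : ∀ l, (H l).IsHomogeneous (h l)) :
    (EntireCurvesIn σ F G H ↔ FinitelyManyIntegral F e G H) ∧
    (EntireCurvesIn σ F G H ↔ AllIn σ F G H) :=
  blv σ F d hF G e he hG hd hex H h hH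

end Pool.Agent.Results.MP_e97a4d_nt.LogFanoComplements
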