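import Mathlib
import Pool.Agent.W235.PR.Final

/-!
The Bombieri-Lang-Vojta equivalence for all projective varieties and all closed subschemes,
restricted to entire curves of exponential type on the analytic side and to sparse rational points,
or linear recurrence sequences of rational points, on the arithmetic side.
-/

set_option autoImplicit false

namespace Pool.Agent.Results.MP_e97a4d_nt.ProjectiveExpSparse

open MvPolynomial Pool.Agent.W235.PR
open scoped NumberField

theorem result {K : Type} [Field K] [NumberField K] (σ : K →+* ℂ) {ι κ : Type} [Finite ι] {n : ℕ}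
    (F : ι → MvPolynomial (Fin (n + 1)) (𝓞 K)) (G : κ → MvPolynomial (Fin (n + 1)) (𝓞 K))
    (hF : ∀ i, ∃ e, (F i).IsHomogeneous e) (hG : ∀ l, ∃ e, (G l).IsHomogeneous e) :
    List.TFAE [ExpCurvesIn σ F G, RatCurvesIn σ F G, SparseFinite F G, SparseFiniteAll F G,
      SparseBounded F G, RecurrenceFinite F G] ∧
    (EntireCurvesIn σ F G → ExpCurvesIn σ F G) ∧
    (RationalFinite F G → RecurrenceFinite F G) :=
  ⟨tfae σ F G hF hG, exp_of_entire σ F G hF hG, rec_of_rational F G⟩

end Pool.Agent.Results.MP_e97a4d_nt.ProjectiveExpSparse
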