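import Mathlib
import Pool.Agent.W235.CY.Final

/-!
Affine varieties of nonpositive weighted log canonical degree, with arbitrary singularities: a curve
with Laurent polynomial coordinates passes through every point, and the Bombieri-Lang-Vojta
equivalence between finiteness of integral points and degeneracy of entire curves holds for all
closed subschemes.
-/

set_option autoImplicit false

namespace Pool.Agent.Results.MP_e97a4d_nt.WeightedLogCalabiYau

open MvPolynomial
open Pool.Agent.W235.RM (EntireCurvesIn)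
open Pool.Agent.H159R3.Exp (Laur FinitelyManyIntegral)
open scoped NumberField

theorem result {n r : ℕ} (w : Fin n → ℕ) (d : Fin r → ℕ) (hle : ∑ j, d j ≤ ∑ i, w i)
    (hne : ∃ v, 1 ≤ v ∧ (Finset.univ.filter fun i => w i = v).card ≠
      (Finset.univ.filter fun j => d j = v).card) :
    (∀ f : Fin r → MvPolynomial (Fin n) ℂ,
      (∀ j, ∀ α ∈ (f j).support, ∑ i, w i * α i ≤ d j) →
      ∀ p : Fin n → ℂ, (∀ j, eval p (f j) = 0) →
        ∃ v : ℂ → Fin n → ℂ, (∀ i, Laur fun t => v t i) ∧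
          (∀ t, t ≠ 0 → ∀ j, eval (v t) (f j) = 0) ∧ v 1 = p ∧
          (∀ i, w i = 0 → ∀ t, v t i = p i) ∧ ∃ t, t ≠ 0 ∧ v t ≠ p) ∧
    ∀ (K : Type) [Field K] [NumberField K] (σ : K →+* ℂ) (κ : Type)
      (F : Fin r → MvPolynomial (Fin n) (𝓞 K)) (G : κ → MvPolynomial (Fin n) (𝓞 K)),
      (∀ j, ∀ α ∈ (F j).support, ∑ i, w i * α i ≤ d j) →
        (EntireCurvesIn σ F G ↔ FinitelyManyIntegral F G) ∧
        (EntireCurvesIn σ F G ↔ ∀ x : Fin n → ℂ,
          (∀ j, eval₂ (σ.comp (algebraMap (𝓞 K) K)) x (F j) = 0) →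
          ∀ l, eval₂ (σ.comp (algebraMap (𝓞 K) K)) x (G l) = 0) :=
  ⟨fun f hf p hp => Pool.Agent.W235.CY.exists_laurent hle hne f hf p hp,
    fun K _ _ σ κ F G hF => Pool.Agent.W235.CY.blv σ hle hne F hF G⟩

end Pool.Agent.Results.MP_e97a4d_nt.WeightedLogCalabiYau
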